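import Pool.Agent.helper86.OF.SpecL

/-!
# Balanced colourings: number of vertices where a colour is missing

Module BAV of the project MP_c62920_co (helper86).
-/

open scoped BigOperators

namespace Pool.Agent.OF

noncomputable section

open Classical

theorem BAV (hBAL : BAL_stmt) (hSCN : SCN_stmt) : BAV_stmt := by
  intro V _ G D X hEC
  obtain ⟨c, hc, hbal⟩ := hBAL V G D X hEC
  refine ⟨c, hc, ?_⟩
  intro i hi
  have h1 : ∑ j ∈ Finset.range D, mis G c X i ≤ ∑ j ∈ Finset.range D, (mis G c X j + 2) :=
    Finset.sum_le_sum fun j hj => hbal i hi j (Finset.mem_range.1 hj)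
  rw [Finset.sum_const, Finset.card_range, smul_eq_mul, Finset.sum_add_distrib, Finset.sum_const,
    Finset.card_range, smul_eq_mul] at h1
  have h2 : ∑ j ∈ Finset.range D, mis G c X j = ∑ x ∈ X, (D - dg G x) := by
    have h3 : ∀ j, mis G c X j = ∑ x ∈ X, if ¬ has G c x j then 1 else 0 := by
      intro j
      unfold mis
      rw [Finset.card_filter]
    simp only [h3]
    rw [Finset.sum_comm]
    apply Finset.sum_congr rfl
    intro x _
    rw [← Finset.card_filter]
    have h4 := hSCN V G D c hc x
    have h5 := Finset.card_filter_add_card_filter_not (s := Finset.range D) (fun i => has G c x i)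
    rw [Finset.card_range, h4] at h5
    omega
  rw [h2] at h1
  omega

end

end Pool.Agent.OF
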