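import Pool.Agent.helper86.OF.SpecM
import Pool.Agent.helper82.OF.KB2

/-!
# Edge colouring of dense critical graphs: MPS (one colour of the middle phase)
-/

open scoped BigOperators

namespace Pool.Agent.OF

noncomputable section

open Classical

/-- The available neighbours of `a` which are covered by the matching. -/
def MPS_N {V : Type} [Fintype V] (EE S T : Finset V) (R : SimpleGraph V) (m : V → V) (a : V) :
    Finset V :=
  Finset.univ.filter fun n => n ∉ S ∧ n ∉ T ∧ n ∉ EE ∧ R.Adj a n ∧ m n ≠ n ∧ m n ∉ S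

/-- The vertices of `Q` with at least three neighbours among the partners of `MPS_N`. -/
def MPS_Q {V : Type} [Fintype V] (Q EE S T : Finset V) (R : SimpleGraph V) (m : V → V) (a : V) :
    Finset V :=
  Q.filter fun v => 3 ≤ dgs R ((MPS_N EE S T R m a).image m) v

lemma MPS_ep {V : Type} [Fintype V] (R : SimpleGraph V) (P Q : Finset V) :
    ep R P Q = ep R Q P := by
  unfold ep dgs
  simp only [Finset.card_filter]
  rw [Finset.sum_comm]
  refine Finset.sum_congr rfl fun v _ => Finset.sum_congr rfl fun w _ => ?_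
  simp only [SimpleGraph.adj_comm]

lemma MPS_Ncard {V : Type} [Fintype V] {Z EE S T : Finset V} {R : SimpleGraph V} {m : V → V}
    {ζ δ : ℝ} {a : V} (hinv : ∀ v, m (m v) = v) (hZ : ∀ n, R.Adj a n → n ∈ Z)
    (hS : (S.card : ℝ) ≤ δ * Fintype.card V) (hE : (EE.card : ℝ) ≤ δ * Fintype.card V)
    (hT : (T.card : ℝ) ≤ 4 * δ * Fintype.card V)
    (hun : ((Z.filter fun v => m v = v).card : ℝ) ≤ δ * Fintype.card V)
    (hd : ζ * Fintype.card V ≤ ((Finset.univ.filter fun b => b ∉ S ∧ R.Adj a b).card : ℝ))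
    (hδ : 14 * δ ≤ ζ) :
    ζ / 2 * Fintype.card V ≤ ((MPS_N EE S T R m a).card : ℝ) := by
  have hsub : (Finset.univ.filter fun b => b ∉ S ∧ R.Adj a b) ⊆
      MPS_N EE S T R m a ∪ T ∪ EE ∪ (Z.filter fun v => m v = v) ∪ S.image m := by
    intro b hb
    simp only [Finset.mem_filter, Finset.mem_univ, true_and] at hb
    simp only [Finset.mem_union]
    by_cases h1 : b ∈ T
    · left; left; left; right; exact h1
    by_cases h2 : b ∈ EE
    · left; left; right; exact h2
    by_cases h3 : m b = b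
    · left; right
      rw [Finset.mem_filter]
      exact ⟨hZ b hb.2, h3⟩
    by_cases h4 : m b ∈ S
    · right
      rw [Finset.mem_image]
      exact ⟨m b, h4, hinv b⟩
    · left; left; left; left
      unfold MPS_N
      simp only [Finset.mem_filter, Finset.mem_univ, true_and]
      exact ⟨hb.1, h1, h2, hb.2, h3, h4⟩
  have hle := Finset.card_le_card hsub
  have hu1 := Finset.card_union_le
    (MPS_N EE S T R m a ∪ T ∪ EE ∪ (Z.filter fun v => m v = v)) (S.image m)
  have hu2 := Finset.card_union_le (MPS_N EE S T R m a ∪ T ∪ EE) (Z.filter fun v => m v = v)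
  have hu3 := Finset.card_union_le (MPS_N EE S T R m a ∪ T) EE
  have hu4 := Finset.card_union_le (MPS_N EE S T R m a) T
  have hu5 : (S.image m).card ≤ S.card := Finset.card_image_le
  have htot : ((Finset.univ.filter fun b => b ∉ S ∧ R.Adj a b).card : ℝ) ≤
      ((MPS_N EE S T R m a).card : ℝ) + T.card + EE.card +
      ((Z.filter fun v => m v = v).card : ℝ) + S.card := by
    have : (Finset.univ.filter fun b => b ∉ S ∧ R.Adj a b).card ≤
      (MPS_N EE S T R m a).card + T.card + EE.card +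
      (Z.filter fun v => m v = v).card + S.card := by omega
    exact_mod_cast this
  have hN0 : (0 : ℝ) ≤ Fintype.card V := Nat.cast_nonneg _
  nlinarith

lemma MPS_half {V : Type} [Fintype V] {P Q Z EE S T : Finset V} {R : SimpleGraph V} {m : V → V}
    {ζ ε κ δ : ℝ} {a : V} (hinv : ∀ v, m (m v) = v) (hZ : ∀ n, R.Adj a n → n ∈ Z)
    (hP : ∀ n, R.Adj a n → n ∉ EE → m n ≠ n → m n ∈ P)
    (hS : (S.card : ℝ) ≤ δ * Fintype.card V) (hE : (EE.card : ℝ) ≤ δ * Fintype.card V)
    (hT : (T.card : ℝ) ≤ 4 * δ * Fintype.card V)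
    (hun : ((Z.filter fun v => m v = v).card : ℝ) ≤ δ * Fintype.card V)
    (hd : ζ * Fintype.card V ≤ ((Finset.univ.filter fun b => b ∉ S ∧ R.Adj a b).card : ℝ))
    (hδ : 14 * δ ≤ ζ) (hex : Expd R P Q (ζ / 2) ε κ)
    (hκ : 2 * (Fintype.card V : ℝ) < κ * (Fintype.card V : ℝ) ^ 2) :
    (Q.card : ℝ) / 2 + ε * Fintype.card V < ((MPS_Q Q EE S T R m a).card : ℝ) := by
  have hN := MPS_Ncard (EE := EE) (T := T) hinv hZ hS hE hT hun hd hδ
  have hinj : Function.Injective m := fun x y hxy => by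
    have := congrArg m hxy
    rwa [hinv, hinv] at this
  have hP1 : (MPS_N EE S T R m a).image m ⊆ P := by
    intro v hv
    rw [Finset.mem_image] at hv
    obtain ⟨n, hn, rfl⟩ := hv
    unfold MPS_N at hn
    simp only [Finset.mem_filter, Finset.mem_univ, true_and] at hn
    exact hP n hn.2.2.2.1 hn.2.2.1 hn.2.2.2.2.1
  by_contra hcon
  push Not at hcon
  have hsplit : (Q \ MPS_Q Q EE S T R m a).card + (MPS_Q Q EE S T R m a).card = Q.card := by
    apply Finset.card_sdiff_add_card_eq_card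
    unfold MPS_Q
    exact Finset.filter_subset _ _
  have hsplit' : ((Q \ MPS_Q Q EE S T R m a).card : ℝ) + (MPS_Q Q EE S T R m a).card = Q.card := by
    exact_mod_cast hsplit
  have h1 := hex ((MPS_N EE S T R m a).image m) (Q \ MPS_Q Q EE S T R m a) hP1
    Finset.sdiff_subset (by rw [Finset.card_image_of_injective _ hinj]; exact hN) (by linarith)
  rw [MPS_ep] at h1
  have h2 : ep R (Q \ MPS_Q Q EE S T R m a) ((MPS_N EE S T R m a).image m) ≤
      2 * Fintype.card V := by
    unfold ep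
    calc ∑ v ∈ Q \ MPS_Q Q EE S T R m a, dgs R ((MPS_N EE S T R m a).image m) v
        ≤ ∑ v ∈ Q \ MPS_Q Q EE S T R m a, 2 := by
          apply Finset.sum_le_sum
          intro v hv
          rw [Finset.mem_sdiff] at hv
          unfold MPS_Q at hv
          rw [Finset.mem_filter, not_and, not_le] at hv
          have := hv.2 hv.1
          omega
      _ = (Q \ MPS_Q Q EE S T R m a).card * 2 := by rw [Finset.sum_const, smul_eq_mul]
      _ ≤ Fintype.card V * 2 := Nat.mul_le_mul_right _ (Finset.card_le_univ _)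
      _ = 2 * Fintype.card V := by ring
  have h3 : ((ep R (Q \ MPS_Q Q EE S T R m a) ((MPS_N EE S T R m a).image m) : ℕ) : ℝ) ≤
      2 * (Fintype.card V : ℝ) := by exact_mod_cast h2
  linarith

/-- The rotation: old edges `n1 p1`, `n2 q`, `r t`; new edges `a n1`, `p1 n2`, `q r`, `t b`. -/
lemma MPS_rot {V : Type} {R : SimpleGraph V} {m μ : V → V} {T : Finset V}
    (hc : Chg R m μ T) {a n1 p1 n2 q r t b : V}
    (hmT : ∀ v, v ∉ T → m v ∉ T)
    (hμa : μ a = a) (hμb : μ b = b) (ha : m a = a) (hb : m b = b)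
    (hn1 : n1 ∉ T) (hn2 : n2 ∉ T) (hr : r ∉ T)
    (e1 : m n1 = p1) (e1' : m p1 = n1) (e2 : m n2 = q) (e2' : m q = n2) (e3 : m r = t)
    (e3' : m t = r)
    (x1 : R.Adj a n1) (x2 : R.Adj p1 n2) (x3 : R.Adj q r) (x4 : R.Adj t b)
    (d1 : a ≠ p1) (d2 : a ≠ q) (d3 : a ≠ t) (d4 : p1 ≠ q) (d5 : p1 ≠ t) (d6 : q ≠ t)
    (c1 : n1 ≠ n2) (c2 : n1 ≠ r) (c3 : n1 ≠ b) (c4 : n2 ≠ r) (c5 : n2 ≠ b) (c6 : r ≠ b)
    (f1 : ∀ x ∈ ({a, p1, q, t} : Finset V), ∀ y ∈ ({n1, n2, r, b} : Finset V), x ≠ y) :
    ∃ (μ' : V → V) (F : Finset V), Chg R m μ' (T ∪ F) ∧ F.card ≤ 8 ∧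
      (∀ v, v ∈ F ↔ v = a ∨ v = n1 ∨ v = p1 ∨ v = n2 ∨ v = q ∨ v = r ∨ v = t ∨ v = b) ∧
      (∀ v ∈ F, μ' v ≠ v) ∧ ∀ v, v ∉ F → μ' v = μ v := by
  have g : ∀ x y, (x = a ∨ x = p1 ∨ x = q ∨ x = t) → (y = n1 ∨ y = n2 ∨ y = r ∨ y = b) →
      x ≠ y := by
    intro x y hx hy
    apply f1
    · simpa using hx
    · simpa using hy
  let σ : V → V := fun v => if v = a then n1 else if v = n1 then a else if v = p1 then n2 else
      if v = n2 then p1 else if v = q then r else if v = r then q else if v = t then b else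
      if v = b then t else v
  let F : Finset V := {a, n1, p1, n2, q, r, t, b}
  have hFm : ∀ v, v ∈ F ↔ v = a ∨ v = n1 ∨ v = p1 ∨ v = n2 ∨ v = q ∨ v = r ∨ v = t ∨ v = b := by
    intro v; simp only [F, Finset.mem_insert, Finset.mem_singleton]
  have g1 : a ≠ n1 := g _ _ (by tauto) (by tauto)
  have g2 : a ≠ n2 := g _ _ (by tauto) (by tauto)
  have g3 : a ≠ r := g _ _ (by tauto) (by tauto)
  have g4 : a ≠ b := g _ _ (by tauto) (by tauto)
  have g5 : p1 ≠ n1 := g _ _ (by tauto) (by tauto)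
  have g6 : p1 ≠ n2 := g _ _ (by tauto) (by tauto)
  have g7 : p1 ≠ r := g _ _ (by tauto) (by tauto)
  have g8 : p1 ≠ b := g _ _ (by tauto) (by tauto)
  have g9 : q ≠ n1 := g _ _ (by tauto) (by tauto)
  have g10 : q ≠ n2 := g _ _ (by tauto) (by tauto)
  have g11 : q ≠ r := g _ _ (by tauto) (by tauto)
  have g12 : q ≠ b := g _ _ (by tauto) (by tauto)
  have g13 : t ≠ n1 := g _ _ (by tauto) (by tauto)
  have g14 : t ≠ n2 := g _ _ (by tauto) (by tauto)
  have g15 : t ≠ r := g _ _ (by tauto) (by tauto)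
  have g16 : t ≠ b := g _ _ (by tauto) (by tauto)
  have s1 : σ a = n1 := by simp [σ]
  have s2 : σ n1 = a := by simp [σ, g1.symm]
  have s3 : σ p1 = n2 := by simp [σ, d1.symm, g5]
  have s4 : σ n2 = p1 := by simp [σ, g2.symm, c1.symm, g6.symm]
  have s5 : σ q = r := by simp [σ, d2.symm, g9, d4.symm, g10]
  have s6 : σ r = q := by simp [σ, g3.symm, c2.symm, g7.symm, c4.symm, g11.symm]
  have s7 : σ t = b := by simp [σ, d3.symm, g13, d5.symm, g14, d6.symm, g15]
  have s8 : σ b = t := by
    simp [σ, g4.symm, c3.symm, g8.symm, c5.symm, g12.symm, c6.symm, g16.symm]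
  have fa : a ∈ F := by simp [F]
  have fn1 : n1 ∈ F := by simp [F]
  have fp1 : p1 ∈ F := by simp [F]
  have fn2 : n2 ∈ F := by simp [F]
  have fq : q ∈ F := by simp [F]
  have fr : r ∈ F := by simp [F]
  have ft : t ∈ F := by simp [F]
  have fb : b ∈ F := by simp [F]
  have hF8 : F.card ≤ 8 := by
    refine le_trans (Finset.card_insert_le _ _) ?_
    refine Nat.succ_le_succ ?_
    refine le_trans (Finset.card_insert_le _ _) ?_
    refine Nat.succ_le_succ ?_
    exact Finset.card_le_six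
  have hp1 : p1 ∉ T := by rw [← e1]; exact hmT _ hn1
  have hq : q ∉ T := by rw [← e2]; exact hmT _ hn2
  have ht : t ∉ T := by rw [← e3]; exact hmT _ hr
  have y1 : μ n1 = p1 := by rw [hc.off _ hn1, e1]
  have y1' : μ p1 = n1 := by rw [hc.off _ hp1, e1']
  have y2 : μ n2 = q := by rw [hc.off _ hn2, e2]
  have y2' : μ q = n2 := by rw [hc.off _ hq, e2']
  have y3 : μ r = t := by rw [hc.off _ hr, e3]
  have y3' : μ t = r := by rw [hc.off _ ht, e3']
  refine ⟨fun v => if v ∈ F then σ v else μ v, F, ?_, hF8, hFm, ?_, ?_⟩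
  · apply KB2_gen hc F σ
    · intro v hv
      rw [hFm] at hv
      rcases hv with rfl | rfl | rfl | rfl | rfl | rfl | rfl | rfl
      · rw [s1]; exact fn1
      · rw [s2]; exact fa
      · rw [s3]; exact fn2
      · rw [s4]; exact fp1
      · rw [s5]; exact fr
      · rw [s6]; exact fq
      · rw [s7]; exact fb
      · rw [s8]; exact ft
    · intro v hv
      rw [hFm] at hv
      rcases hv with rfl | rfl | rfl | rfl | rfl | rfl | rfl | rfl
      · rw [s1, s2]
      · rw [s2, s1]
      · rw [s3, s4]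
      · rw [s4, s3]
      · rw [s5, s6]
      · rw [s6, s5]
      · rw [s7, s8]
      · rw [s8, s7]
    · intro v hv
      rw [hFm] at hv
      rcases hv with rfl | rfl | rfl | rfl | rfl | rfl | rfl | rfl
      · rw [hμa]; exact fa
      · rw [y1]; exact fp1
      · rw [y1']; exact fn1
      · rw [y2]; exact fq
      · rw [y2']; exact fn2
      · rw [y3]; exact ft
      · rw [y3']; exact fr
      · rw [hμb]; exact fb
    · intro v hv
      rw [hFm] at hv
      rw [Finset.mem_union]
      right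
      rcases hv with rfl | rfl | rfl | rfl | rfl | rfl | rfl | rfl
      · rw [ha]; exact fa
      · rw [e1]; exact fp1
      · rw [e1']; exact fn1
      · rw [e2]; exact fq
      · rw [e2']; exact fn2
      · rw [e3]; exact ft
      · rw [e3']; exact fr
      · rw [hb]; exact fb
    · intro v hv
      rw [hFm] at hv
      rcases hv with rfl | rfl | rfl | rfl | rfl | rfl | rfl | rfl
      · rw [s1]; exact x1
      · rw [s2]; exact x1.symm
      · rw [s3]; exact x2
      · rw [s4]; exact x2.symm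
      · rw [s5]; exact x3
      · rw [s6]; exact x3.symm
      · rw [s7]; exact x4
      · rw [s8]; exact x4.symm
  · intro v hv
    simp only [hv, if_true]
    rw [hFm] at hv
    rcases hv with rfl | rfl | rfl | rfl | rfl | rfl | rfl | rfl
    · rw [s1]; exact g1.symm
    · rw [s2]; exact g1
    · rw [s3]; exact g6.symm
    · rw [s4]; exact g6
    · rw [s5]; exact g11.symm
    · rw [s6]; exact g11
    · rw [s7]; exact g16.symm
    · rw [s8]; exact g16
  · intro v hv
    simp only [hv, if_false]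

/-- Three distinct elements in a set of adjacent vertices: one avoids two given vertices. -/
lemma MPS_pick {V : Type} [Fintype V] {R : SimpleGraph V} {P : Finset V} {v x y : V}
    (h : 3 ≤ dgs R P v) : ∃ p ∈ P, R.Adj v p ∧ p ≠ x ∧ p ≠ y := by
  unfold dgs at h
  by_contra hcon
  push Not at hcon
  have : (P.filter fun w => R.Adj v w) ⊆ {x, y} := by
    intro p hp
    rw [Finset.mem_filter] at hp
    have := hcon p hp.1 hp.2
    rw [Finset.mem_insert, Finset.mem_singleton]
    tauto
  have := le_trans (Finset.card_le_card this) Finset.card_le_two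
  omega

lemma MPS_step {V : Type} [Fintype V] {A Z EE S T : Finset V} {R : SimpleGraph V}
    {m μ : V → V} {ζ ε κ δ : ℝ} (hM : MCtx A Z EE S R m ζ ε κ δ) (hδ : 14 * δ ≤ ζ)
    (hδε : 9 * δ ≤ 2 * ε) (hδ0 : 0 < δ)
    (hκ : 2 * (Fintype.card V : ℝ) < κ * (Fintype.card V : ℝ) ^ 2)
    (hc : Chg R m μ T) (hT : (T.card : ℝ) ≤ 4 * δ * Fintype.card V)
    (hTc : ∀ v ∈ T, μ v ≠ v) {a b : V} (ha : a ∈ Z ∩ A) (hb : b ∈ Z \ A) (hμa : μ a = a)
    (hμb : μ b = b) :
    ∃ (μ' : V → V) (F : Finset V), Chg R m μ' (T ∪ F) ∧ F.card ≤ 8 ∧ a ∈ F ∧ b ∈ F ∧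
      (∀ v ∈ F, v = a ∨ v = b ∨ μ v ≠ v) ∧ (∀ v ∈ F, v = a ∨ v = b ∨ v ∉ S) ∧
      (∀ v ∈ F, v ∉ EE) ∧ (∀ v ∈ F, μ' v ≠ v) ∧ ∀ v, v ∉ F → μ' v = μ v := by
  have hmT : ∀ v, v ∉ T → m v ∉ T := by
    intro v hv h
    have := hc.clo _ h
    rw [hM.inv] at this
    exact hv this
  have haT : a ∉ T := fun h => hTc a h hμa
  have hbT : b ∉ T := fun h => hTc b h hμb
  have hma : m a = a := by rw [← hc.off a haT, hμa]
  have hmb : m b = b := by rw [← hc.off b hbT, hμb]
  rw [Finset.mem_inter] at ha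
  rw [Finset.mem_sdiff] at hb
  have hmZ : ∀ n, m n ≠ n → m n ∈ Z := by
    intro n hn
    by_contra h
    have := hM.mZ _ h
    rw [hM.inv] at this
    exact hn this.symm
  have hmE : ∀ n, n ∉ EE → m n ∉ EE := by
    intro n hn h
    have := (hM.ee _ h).1
    rw [hM.inv] at this
    exact hn this
  -- the two halves
  have hPa : ∀ n, R.Adj a n → n ∉ EE → m n ≠ n → m n ∈ Z ∩ A := by
    intro n h1 h2 h3
    rw [Finset.mem_inter]
    refine ⟨hmZ n h3, ?_⟩
    have h4 := (hM.rZ a n h1).2.2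
    have h5 := hM.cr n h2 h3
    have := ha.2
    tauto
  have hPb : ∀ n, R.Adj b n → n ∉ EE → m n ≠ n → m n ∈ Z \ A := by
    intro n h1 h2 h3
    rw [Finset.mem_sdiff]
    refine ⟨hmZ n h3, ?_⟩
    have h4 := (hM.rZ b n h1).2.2
    have h5 := hM.cr n h2 h3
    have := hb.2
    tauto
  have hA := MPS_half (Z := Z) (P := Z ∩ A) (Q := Z \ A) (T := T) hM.inv
    (fun n h => (hM.rZ a n h).2.1) hPa hM.szS hM.szE hT hM.un (hM.dgr a ha.1) hδ hM.ex1 hκ
  have hB := MPS_half (Z := Z) (P := Z \ A) (Q := Z ∩ A) (T := T) hM.inv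
    (fun n h => (hM.rZ b n h).2.1) hPb hM.szS hM.szE hT hM.un (hM.dgr b hb.1) hδ hM.ex2 hκ
  have hinj : Function.Injective m := fun x y hxy => by
    have := congrArg m hxy
    rwa [hM.inv, hM.inv] at this
  -- the middle edge
  obtain ⟨n2, hn2Q, hn2S, hn2T, hn2E, hn2m, hn2mS, hqQ⟩ : ∃ n2, n2 ∈ MPS_Q (Z \ A) EE S T R m a ∧
      n2 ∉ S ∧ n2 ∉ T ∧ n2 ∉ EE ∧ m n2 ≠ n2 ∧ m n2 ∉ S ∧ m n2 ∈ MPS_Q (Z ∩ A) EE S T R m b := by
    set G : Finset V := (MPS_Q (Z \ A) EE S T R m a).filter fun v =>
      v ∉ S ∧ v ∉ T ∧ v ∉ EE ∧ m v ≠ v ∧ m v ∉ S with hG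
    have hsub : MPS_Q (Z \ A) EE S T R m a ⊆
        G ∪ S ∪ T ∪ EE ∪ (Z.filter fun v => m v = v) ∪ S.image m := by
      intro v hv
      simp only [Finset.mem_union]
      by_cases h1 : v ∈ S
      · left; left; left; left; right; exact h1
      by_cases h2 : v ∈ T
      · left; left; left; right; exact h2
      by_cases h3 : v ∈ EE
      · left; left; right; exact h3
      by_cases h4 : m v = v
      · left; right
        rw [Finset.mem_filter]
        unfold MPS_Q at hv
        rw [Finset.mem_filter, Finset.mem_sdiff] at hv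
        exact ⟨hv.1.1, h4⟩
      by_cases h5 : m v ∈ S
      · right
        rw [Finset.mem_image]
        exact ⟨m v, h5, hM.inv v⟩
      · left; left; left; left; left
        rw [hG, Finset.mem_filter]
        exact ⟨hv, h1, h2, h3, h4, h5⟩
    have hle := Finset.card_le_card hsub
    have hu1 := Finset.card_union_le
      (G ∪ S ∪ T ∪ EE ∪ (Z.filter fun v => m v = v)) (S.image m)
    have hu2 := Finset.card_union_le (G ∪ S ∪ T ∪ EE) (Z.filter fun v => m v = v)
    have hu3 := Finset.card_union_le (G ∪ S ∪ T) EE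
    have hu4 := Finset.card_union_le (G ∪ S) T
    have hu6 := Finset.card_union_le G S
    have hu5 : (S.image m).card ≤ S.card := Finset.card_image_le
    have htot : ((MPS_Q (Z \ A) EE S T R m a).card : ℝ) ≤
        (G.card : ℝ) + S.card + T.card + EE.card +
        ((Z.filter fun v => m v = v).card : ℝ) + S.card := by
      have : (MPS_Q (Z \ A) EE S T R m a).card ≤
        G.card + S.card + T.card + EE.card + (Z.filter fun v => m v = v).card + S.card := by omega
      exact_mod_cast this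
    have hGA : G.image m ⊆ Z ∩ A := by
      intro v hv
      rw [Finset.mem_image] at hv
      obtain ⟨n, hn, rfl⟩ := hv
      rw [hG, Finset.mem_filter] at hn
      have hn1 := hn.1
      unfold MPS_Q at hn1
      rw [Finset.mem_filter, Finset.mem_sdiff] at hn1
      rw [Finset.mem_inter]
      refine ⟨hmZ n hn.2.2.2.2.1, ?_⟩
      have h5 := hM.cr n hn.2.2.2.1 hn.2.2.2.2.1
      have := hn1.1.2
      tauto
    have hQA : MPS_Q (Z ∩ A) EE S T R m b ⊆ Z ∩ A := by
      unfold MPS_Q
      exact Finset.filter_subset _ _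
    have hlt : (Z ∩ A).card < (G.image m).card + (MPS_Q (Z ∩ A) EE S T R m b).card := by
      rw [Finset.card_image_of_injective _ hinj]
      have hreal : ((Z ∩ A).card : ℝ) < (G.card : ℝ) +
          ((MPS_Q (Z ∩ A) EE S T R m b).card : ℝ) := by
        have h1 := hM.szS
        have h2 := hM.szE
        have h3 := hM.un
        have h4 := (abs_le.1 hM.dif).2
        have hN0 : (0 : ℝ) ≤ Fintype.card V := Nat.cast_nonneg _
        have hN1 : (0 : ℝ) ≤ δ * Fintype.card V := by positivity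
        have hN2 : 9 * δ * Fintype.card V ≤ 2 * ε * Fintype.card V := by nlinarith
        linarith
      exact_mod_cast hreal
    obtain ⟨v, hv⟩ := Finset.inter_nonempty_of_card_lt_card_add_card hGA hQA hlt
    rw [Finset.mem_inter, Finset.mem_image] at hv
    obtain ⟨⟨n, hn, rfl⟩, hv2⟩ := hv
    rw [hG, Finset.mem_filter] at hn
    exact ⟨n, hn.1, hn.2.1, hn.2.2.1, hn.2.2.2.1, hn.2.2.2.2.1, hn.2.2.2.2.2, hv2⟩
  set q := m n2 with hqdef
  have hmq : m q = n2 := by rw [hqdef, hM.inv]
  have hn2Z : n2 ∈ Z \ A := by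
    unfold MPS_Q at hn2Q
    rw [Finset.mem_filter] at hn2Q
    exact hn2Q.1
  have hqZ : q ∈ Z ∩ A := by
    unfold MPS_Q at hqQ
    rw [Finset.mem_filter] at hqQ
    exact hqQ.1
  have hn2d : 3 ≤ dgs R ((MPS_N EE S T R m a).image m) n2 := by
    unfold MPS_Q at hn2Q
    rw [Finset.mem_filter] at hn2Q
    exact hn2Q.2
  have hqd : 3 ≤ dgs R ((MPS_N EE S T R m b).image m) q := by
    unfold MPS_Q at hqQ
    rw [Finset.mem_filter] at hqQ
    exact hqQ.2
  obtain ⟨p1, hp1, hp1a, hp1q, -⟩ := MPS_pick (x := q) (y := q) hn2d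
  rw [Finset.mem_image] at hp1
  obtain ⟨n1, hn1, rfl⟩ := hp1
  obtain ⟨r, hr, hra, hrn2, hrn1⟩ := MPS_pick (x := n2) (y := n1) hqd
  rw [Finset.mem_image] at hr
  obtain ⟨t, ht, rfl⟩ := hr
  unfold MPS_N at hn1 ht
  simp only [Finset.mem_filter, Finset.mem_univ, true_and] at hn1 ht
  obtain ⟨hn1S, hn1T, hn1E, han1, hn1m, hn1mS⟩ := hn1
  obtain ⟨htS, htT, htE, hbt, htm, htmS⟩ := ht
  have hp1A := hPa n1 han1 hn1E hn1m
  have hrA := hPb t hbt htE htm
  rw [Finset.mem_inter] at hp1A hqZ
  rw [Finset.mem_sdiff] at hrA hn2Z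
  have hn1A : n1 ∉ A := by
    have h4 := (hM.rZ a n1 han1).2.2
    have := ha.2
    tauto
  have htA : t ∈ A := by
    have h4 := (hM.rZ b t hbt).2.2
    have := hb.2
    tauto
  have hunc : ∀ v w, m v = v → m w ≠ w → v ≠ w := by
    intro v w h1 h2 h3
    subst h3
    exact h2 h1
  have hmm : ∀ v, m v ≠ v → m (m v) ≠ m v := by
    intro v hv h
    rw [hM.inv] at h
    exact hv h.symm
  obtain ⟨μ', F, h1, h2, h3, h4, h5⟩ := MPS_rot (a := a) (n1 := n1) (p1 := m n1) (n2 := n2)
    (q := q) (r := m t) (t := t) (b := b) hc hmT hμa hμb hma hmb hn1T hn2T (hmT t htT) rfl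
    (hM.inv n1) rfl hmq (hM.inv t) rfl han1 hp1a.symm hra hbt.symm
    (hunc _ _ hma (hmm _ hn1m)) (hunc _ _ hma (by rw [hmq]; exact hn2m.symm))
    (hunc _ _ hma htm) hp1q (fun h => hrn1 (by rw [← h, hM.inv]))
    (fun h => hrn2 (by rw [← h, hmq]))
    (fun h => hp1q (by rw [h])) (fun h => hrn1 h.symm) (hunc _ _ hmb hn1m).symm
    (fun h => hrn2 h.symm) (hunc _ _ hmb hn2m).symm (hunc _ _ hmb (hmm _ htm)).symm (by
      intro x hx y hy h
      subst h
      simp only [Finset.mem_insert, Finset.mem_singleton] at hx hy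
      have hxA : x ∈ A := by
        rcases hx with rfl | rfl | rfl | rfl
        · exact ha.2
        · exact hp1A.2
        · exact hqZ.2
        · exact htA
      have hxA' : x ∉ A := by
        rcases hy with rfl | rfl | rfl | rfl
        · exact hn1A
        · exact hn2Z.2
        · exact hrA.2
        · exact hb.2
      exact hxA' hxA)
  refine ⟨μ', F, h1, h2, (h3 a).2 (by tauto), (h3 b).2 (by tauto), ?_, ?_, ?_, h4, h5⟩
  · intro v hv
    rw [h3] at hv
    have key : ∀ w, w ∉ T → m w ≠ w → μ w ≠ w := by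
      intro w h1 h2
      rw [hc.off w h1]
      exact h2
    rcases hv with rfl | rfl | rfl | rfl | rfl | rfl | rfl | rfl
    · left; rfl
    · right; right; exact key _ hn1T hn1m
    · right; right; exact key _ (hmT _ hn1T) (hmm _ hn1m)
    · right; right; exact key _ hn2T hn2m
    · right; right; exact key _ (hmT _ hn2T) (hmm _ hn2m)
    · right; right; exact key _ (hmT _ htT) (hmm _ htm)
    · right; right; exact key _ htT htm
    · right; left; rfl
  · intro v hv
    rw [h3] at hv
    rcases hv with rfl | rfl | rfl | rfl | rfl | rfl | rfl | rfl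
    · left; rfl
    · right; right; exact hn1S
    · right; right; exact hn1mS
    · right; right; exact hn2S
    · right; right; exact hn2mS
    · right; right; exact htmS
    · right; right; exact htS
    · right; left; rfl
  · intro v hv
    rw [h3] at hv
    rcases hv with rfl | rfl | rfl | rfl | rfl | rfl | rfl | rfl
    · intro h; exact (hM.ee _ h).2 hma
    · exact hn1E
    · exact hmE _ hn1E
    · exact hn2E
    · exact hmE _ hn2E
    · exact hmE _ htE
    · exact htE
    · intro h; exact (hM.ee _ h).2 hmb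

/-- The pairs one after the other. -/
lemma MPS_ind {V : Type} [Fintype V] {A Z EE S : Finset V} {R : SimpleGraph V}
    {m : V → V} {ζ ε κ δ : ℝ} (hM : MCtx A Z EE S R m ζ ε κ δ) (hδ : 14 * δ ≤ ζ)
    (hδε : 9 * δ ≤ 2 * ε) (hδ0 : 0 < δ)
    (hκ : 2 * (Fintype.card V : ℝ) < κ * (Fintype.card V : ℝ) ^ 2) (n : ℕ) :
    ∀ (μ : V → V) (T : Finset V), Chg R m μ T → (∀ v ∈ T, μ v ≠ v) →
    T.card + 8 * n ≤ 4 * (Z.filter fun v => m v = v).card →
    (∀ v ∈ T, (v ∈ Z ∧ m v = v) ∨ v ∉ S) → (∀ v ∈ EE, v ∉ T) →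
    ((Z ∩ A).filter fun v => μ v = v).card = n → ((Z \ A).filter fun v => μ v = v).card = n →
    ∃ (μ : V → V) (T : Finset V), Chg R m μ T ∧ (∀ v ∈ Z, μ v ≠ v) ∧
      T.card ≤ 4 * (Z.filter fun v => m v = v).card ∧ (∀ v ∈ T, (v ∈ Z ∧ m v = v) ∨ v ∉ S) ∧
      ∀ v ∈ EE, v ∉ T := by
  induction n with
  | zero =>
    intro μ T hc hTc hT hS hE h1 h2
    refine ⟨μ, T, hc, ?_, by omega, hS, hE⟩
    intro v hv h
    rw [Finset.card_eq_zero, Finset.filter_eq_empty_iff] at h1 h2
    by_cases hA : v ∈ A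
    · exact h1 (Finset.mem_inter.2 ⟨hv, hA⟩) h
    · exact h2 (Finset.mem_sdiff.2 ⟨hv, hA⟩) h
  | succ n ih =>
    intro μ T hc hTc hT hS hE h1 h2
    obtain ⟨a, ha⟩ : ((Z ∩ A).filter fun v => μ v = v).Nonempty := by
      rw [← Finset.card_pos, h1]; omega
    obtain ⟨b, hb⟩ : ((Z \ A).filter fun v => μ v = v).Nonempty := by
      rw [← Finset.card_pos, h2]; omega
    rw [Finset.mem_filter] at ha hb
    have hTr : (T.card : ℝ) ≤ 4 * δ * Fintype.card V := by
      have h3 : (T.card : ℝ) ≤ 4 * ((Z.filter fun v => m v = v).card : ℝ) := by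
        have : T.card ≤ 4 * (Z.filter fun v => m v = v).card := by omega
        exact_mod_cast this
      have := hM.un
      linarith
    obtain ⟨μ', F, e1, e2, e3, e4, e5, e6, e7, e8, e9⟩ :=
      MPS_step hM hδ hδε hδ0 hκ hc hTr hTc ha.1 hb.1 ha.2 hb.2
    have haT : a ∉ T := fun h => hTc a h ha.2
    have hbT : b ∉ T := fun h => hTc b h hb.2
    have hma : m a = a := by rw [← hc.off a haT, ha.2]
    have hmb : m b = b := by rw [← hc.off b hbT, hb.2]
    have haZ := Finset.mem_inter.1 ha.1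
    have hbZ := Finset.mem_sdiff.1 hb.1
    refine ih μ' (T ∪ F) e1 ?_ ?_ ?_ ?_ ?_ ?_
    · intro v hv
      by_cases hF : v ∈ F
      · exact e8 v hF
      · rw [e9 v hF]
        rw [Finset.mem_union] at hv
        exact hTc v (hv.resolve_right hF)
    · have := Finset.card_union_le T F
      omega
    · intro v hv
      rw [Finset.mem_union] at hv
      rcases hv with hv | hv
      · exact hS v hv
      · rcases e6 v hv with rfl | rfl | h
        · left; exact ⟨haZ.1, hma⟩
        · left; exact ⟨hbZ.1, hmb⟩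
        · right; exact h
    · intro v hv hv2
      rw [Finset.mem_union] at hv2
      rcases hv2 with hv2 | hv2
      · exact hE v hv hv2
      · exact e7 v hv2 hv
    · have : ((Z ∩ A).filter fun v => μ' v = v) = ((Z ∩ A).filter fun v => μ v = v).erase a := by
        ext v
        rw [Finset.mem_erase, Finset.mem_filter, Finset.mem_filter]
        constructor
        · rintro ⟨h3, h4⟩
          have hF : v ∉ F := fun h => e8 v h h4
          rw [e9 v hF] at h4
          exact ⟨fun h => hF (by rw [h]; exact e3), h3, h4⟩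
        · rintro ⟨h3, h4, h5⟩
          refine ⟨h4, ?_⟩
          have hF : v ∉ F := by
            intro h
            rcases e5 v h with h6 | h6 | h6
            · exact h3 h6
            · rw [h6] at h4
              exact hbZ.2 (Finset.mem_inter.1 h4).2
            · exact h6 h5
          rw [e9 v hF]
          exact h5
      have hmem : a ∈ (Z ∩ A).filter fun v => μ v = v := by
        rw [Finset.mem_filter]; exact ha
      rw [this, Finset.card_erase_of_mem hmem, h1]
      rfl
    · have : ((Z \ A).filter fun v => μ' v = v) = ((Z \ A).filter fun v => μ v = v).erase b := by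
        ext v
        rw [Finset.mem_erase, Finset.mem_filter, Finset.mem_filter]
        constructor
        · rintro ⟨h3, h4⟩
          have hF : v ∉ F := fun h => e8 v h h4
          rw [e9 v hF] at h4
          exact ⟨fun h => hF (by rw [h]; exact e4), h3, h4⟩
        · rintro ⟨h3, h4, h5⟩
          refine ⟨h4, ?_⟩
          have hF : v ∉ F := by
            intro h
            rcases e5 v h with h6 | h6 | h6
            · rw [h6] at h4
              exact (Finset.mem_sdiff.1 h4).2 haZ.2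
            · exact h3 h6
            · exact h6 h5
          rw [e9 v hF]
          exact h5
      have hmem : b ∈ (Z \ A).filter fun v => μ v = v := by
        rw [Finset.mem_filter]; exact hb
      rw [this, Finset.card_erase_of_mem hmem, h2]
      rfl

theorem MPS : MPS_stmt := by
  intro ζ ε κ hζ hε hκ
  obtain ⟨N0, hN0⟩ := exists_nat_gt (2 / κ)
  refine ⟨min (ζ / 14) (2 * ε / 9), N0 + 1, lt_min (by positivity) (by positivity), ?_⟩
  intro V _ A Z EE S R m hN hM
  have hN1 : 2 / κ < (Fintype.card V : ℝ) := by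
    have : ((N0 + 1 : ℕ) : ℝ) ≤ (Fintype.card V : ℝ) := by exact_mod_cast hN
    push_cast at this
    linarith
  have hVpos : (0 : ℝ) < Fintype.card V := lt_trans (by positivity) hN1
  have hκN : 2 * (Fintype.card V : ℝ) < κ * (Fintype.card V : ℝ) ^ 2 := by
    rw [div_lt_iff₀ hκ] at hN1
    nlinarith
  have h1 : 14 * min (ζ / 14) (2 * ε / 9) ≤ ζ := by
    have := min_le_left (ζ / 14) (2 * ε / 9)
    linarith
  have h2 : 9 * min (ζ / 14) (2 * ε / 9) ≤ 2 * ε := by
    have := min_le_right (ζ / 14) (2 * ε / 9)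
    linarith
  have hsum : (Z.filter fun v => m v = v).card = ((Z ∩ A).filter fun v => m v = v).card +
      ((Z \ A).filter fun v => m v = v).card := by
    rw [← Finset.card_union_of_disjoint]
    · congr 1
      rw [← Finset.filter_union, Finset.union_comm, Finset.sdiff_union_inter]
    · rw [Finset.disjoint_left]
      intro v hv hv2
      rw [Finset.mem_filter, Finset.mem_inter] at hv
      rw [Finset.mem_filter, Finset.mem_sdiff] at hv2
      exact hv2.1.2 hv.1.2
  refine MPS_ind hM h1 h2 (lt_min (by positivity) (by positivity)) hκN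
    (((Z ∩ A).filter fun v => m v = v).card) m ∅ ⟨hM.inv, fun v _ => rfl, ?_, fun v _ => Or.inr rfl⟩
    ?_ ?_ ?_ ?_ rfl hM.eq.symm
  · intro v hv; simp at hv
  · intro v hv; simp at hv
  · rw [hsum, ← hM.eq, Finset.card_empty]; omega
  · intro v hv; simp at hv
  · intro v _ hv; simp at hv

end

end Pool.Agent.OF
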