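import Pool.Agent.helper86.OF.SpecL

/-!
# Vizing's adjacency lemma

Module VAL of the project MP_c62920_co (helper86). Multifans at `v` are described by sequences
`x 0 = u, x 1, ..., x k` (`vu` uncoloured, the colour of `v x (i+1)` missing at `x i`).
-/

open scoped BigOperators

namespace Pool.Agent.OF

noncomputable section

open Classical

/-- A fan at `v` starting with the uncoloured edge `vu`. -/
def VAL_fan {V : Type} (G : SimpleGraph V) (v u : V) (c : Sym2 V → ℕ) (x : ℕ → V) (k : ℕ) : Prop :=
  x 0 = u ∧ ∀ i < k, (G.deleteEdges {s(v, u)}).Adj v (x (i + 1)) ∧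
    ¬ has (G.deleteEdges {s(v, u)}) c (x i) (c s(v, x (i + 1)))

theorem VAL_adj {V : Type} (G : SimpleGraph V) (v u a b : V) :
    (G.deleteEdges {s(v, u)}).Adj a b ↔ G.Adj a b ∧ s(a, b) ≠ s(v, u) := by
  rw [SimpleGraph.deleteEdges_adj]
  simp only [Set.mem_singleton_iff, ne_eq]

theorem VAL_adjv {V : Type} (G : SimpleGraph V) (v u b : V) :
    (G.deleteEdges {s(v, u)}).Adj v b ↔ G.Adj v b ∧ b ≠ u := by
  rw [VAL_adj]
  constructor
  · rintro ⟨h1, h2⟩
    refine ⟨h1, fun h => h2 (by rw [h])⟩
  · rintro ⟨h1, h2⟩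
    refine ⟨h1, fun h => ?_⟩
    rw [Sym2.eq_iff] at h
    rcases h with ⟨_, h⟩ | ⟨h, h'⟩
    · exact h2 h
    · exact h1.ne' h'

/-- The uncoloured edge gets a colour missing at both ends. -/
theorem VAL_col {V : Type} (G : SimpleGraph V) (D : ℕ) (v u : V)
    (c : Sym2 V → ℕ) (α : ℕ) (hc : PEC (G.deleteEdges {s(v, u)}) D c) (hα : α < D)
    (hv : ¬ has (G.deleteEdges {s(v, u)}) c v α) (hu : ¬ has (G.deleteEdges {s(v, u)}) c u α) :
    EC G D := by
  refine ⟨fun e => if e = s(v, u) then α else c e, ?_, ?_⟩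
  · intro a b hab
    by_cases h : s(a, b) = s(v, u)
    · simp only [h, if_true]; exact hα
    · simp only [h, if_false]
      exact hc.1 a b ((VAL_adj G v u a b).2 ⟨hab, h⟩)
  · intro a b b' hab hab' heq
    by_cases h : s(a, b) = s(v, u)
    · by_cases h' : s(a, b') = s(v, u)
      · have : s(a, b) = s(a, b') := by rw [h, h']
        rcases Sym2.eq_iff.1 this with ⟨_, h3⟩ | ⟨h3, h4⟩
        · exact h3
        · rw [h4, ← h3]
      · exfalso
        simp only [h, h', if_true, if_false] at heq
        have hadj := (VAL_adj G v u a b').2 ⟨hab', h'⟩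
        rcases Sym2.eq_iff.1 h with ⟨h3, _⟩ | ⟨h3, _⟩
        · rw [h3] at hadj heq
          exact hv ⟨b', hadj, heq.symm⟩
        · rw [h3] at hadj heq
          exact hu ⟨b', hadj, heq.symm⟩
    · by_cases h' : s(a, b') = s(v, u)
      · exfalso
        simp only [h, h', if_true, if_false] at heq
        have hadj := (VAL_adj G v u a b).2 ⟨hab, h⟩
        rcases Sym2.eq_iff.1 h' with ⟨h3, _⟩ | ⟨h3, _⟩
        · rw [h3] at hadj heq
          exact hv ⟨b, hadj, heq⟩
        · rw [h3] at hadj heq
          exact hu ⟨b, hadj, heq⟩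
      · simp only [h, h', if_false] at heq
        exact hc.2 a b b' ((VAL_adj G v u a b).2 ⟨hab, h⟩) ((VAL_adj G v u a b').2 ⟨hab', h'⟩) heq

/-- The shifted colouring: `vu` gets the colour of `vy`, and `vy` becomes uncoloured. -/
def VAL_sh {V : Type} (c : Sym2 V → ℕ) (v u y : V) : Sym2 V → ℕ :=
  fun e => if e = s(v, u) then c s(v, y) else c e

theorem VAL_shPEC {V : Type} (G : SimpleGraph V) (D : ℕ) (v u y : V)
    (c : Sym2 V → ℕ) (hc : PEC (G.deleteEdges {s(v, u)}) D c)
    (hy : (G.deleteEdges {s(v, u)}).Adj v y)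
    (hu : ¬ has (G.deleteEdges {s(v, u)}) c u (c s(v, y))) :
    PEC (G.deleteEdges {s(v, y)}) D (VAL_sh c v u y) := by
  unfold VAL_sh
  refine ⟨?_, ?_⟩
  · intro a b hab
    rw [VAL_adj] at hab
    by_cases h : s(a, b) = s(v, u)
    · simp only [h, if_true]; exact hc.1 _ _ hy
    · simp only [h, if_false]
      exact hc.1 a b ((VAL_adj G v u a b).2 ⟨hab.1, h⟩)
  · intro a b b' hab hab' heq
    rw [VAL_adj] at hab hab'
    by_cases h : s(a, b) = s(v, u)
    · by_cases h' : s(a, b') = s(v, u)
      · have : s(a, b) = s(a, b') := by rw [h, h']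
        rcases Sym2.eq_iff.1 this with ⟨_, h3⟩ | ⟨h3, h4⟩
        · exact h3
        · rw [h4, ← h3]
      · exfalso
        simp only [h, h', if_true, if_false] at heq
        have hadj := (VAL_adj G v u a b').2 ⟨hab'.1, h'⟩
        rcases Sym2.eq_iff.1 h with ⟨h3, _⟩ | ⟨h3, _⟩
        · rw [h3] at hadj heq
          have := hc.2 v y b' hy hadj heq
          apply hab'.2
          rw [h3, this]
        · rw [h3] at hadj heq
          exact hu ⟨b', hadj, heq.symm⟩
    · by_cases h' : s(a, b') = s(v, u)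
      · exfalso
        simp only [h, h', if_true, if_false] at heq
        have hadj := (VAL_adj G v u a b).2 ⟨hab.1, h⟩
        rcases Sym2.eq_iff.1 h' with ⟨h3, _⟩ | ⟨h3, _⟩
        · rw [h3] at hadj heq
          have := hc.2 v y b hy hadj heq.symm
          apply hab.2
          rw [h3, this]
        · rw [h3] at hadj heq
          exact hu ⟨b, hadj, heq⟩
      · simp only [h, h', if_false] at heq
        exact hc.2 a b b' ((VAL_adj G v u a b).2 ⟨hab.1, h⟩) ((VAL_adj G v u a b').2 ⟨hab'.1, h'⟩)
          heq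

theorem VAL_shv {V : Type} (G : SimpleGraph V) (v u y : V)
    (c : Sym2 V → ℕ) (hy : (G.deleteEdges {s(v, u)}).Adj v y) (i : ℕ)
    (h : has (G.deleteEdges {s(v, y)}) (VAL_sh c v u y) v i) :
    has (G.deleteEdges {s(v, u)}) c v i := by
  obtain ⟨b, hb, hcb⟩ := h
  unfold VAL_sh at hcb
  rw [VAL_adj] at hb
  by_cases h : s(v, b) = s(v, u)
  · simp only [h, if_true] at hcb
    exact ⟨y, hy, hcb⟩
  · simp only [h, if_false] at hcb
    exact ⟨b, (VAL_adj G v u v b).2 ⟨hb.1, h⟩, hcb⟩

theorem VAL_sho {V : Type} (G : SimpleGraph V) (v u y : V)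
    (c : Sym2 V → ℕ) (z : V) (hzu : z ≠ u) (hzv : z ≠ v) (i : ℕ)
    (h : has (G.deleteEdges {s(v, y)}) (VAL_sh c v u y) z i) :
    has (G.deleteEdges {s(v, u)}) c z i := by
  obtain ⟨b, hb, hcb⟩ := h
  unfold VAL_sh at hcb
  rw [VAL_adj] at hb
  by_cases h : s(z, b) = s(v, u)
  · exfalso
    rcases Sym2.eq_iff.1 h with ⟨h3, _⟩ | ⟨h3, _⟩
    · exact hzv h3
    · exact hzu h3
  · simp only [h, if_false] at hcb
    exact ⟨b, (VAL_adj G v u z b).2 ⟨hb.1, h⟩, hcb⟩

/-- A colour missing at `v` and at the last vertex of a fan: `G` is `D`-colourable. -/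
theorem VAL_one {V : Type} (G : SimpleGraph V) (D : ℕ) (v : V) (α : ℕ) (hα : α < D) :
    ∀ (k : ℕ) (u : V) (c : Sym2 V → ℕ) (x : ℕ → V), G.Adj v u →
      PEC (G.deleteEdges {s(v, u)}) D c → VAL_fan G v u c x k →
      ¬ has (G.deleteEdges {s(v, u)}) c v α → ¬ has (G.deleteEdges {s(v, u)}) c (x k) α →
      EC G D := by
  intro k
  induction k using Nat.strong_induction_on with
  | _ k ih =>
  intro u c x huv hc hfan hv hx
  obtain ⟨hx0, hstep⟩ := hfan
  rcases Nat.eq_zero_or_pos k with hk | hk
  · subst hk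
    rw [hx0] at hx
    exact VAL_col G D v u c α hc hα hv hx
  · by_cases h1 : ∃ j, 1 ≤ j ∧ j ≤ k ∧ x j = x 0
    · obtain ⟨j, hj1, hj2, hj⟩ := h1
      refine ih (k - j) (by omega) u c (fun i => x (i + j)) huv hc ⟨?_, ?_⟩ hv ?_
      · simp only [Nat.zero_add]; rw [hj, hx0]
      · intro i hi
        have := hstep (i + j) (by omega)
        have e : i + 1 + j = i + j + 1 := by omega
        simp only [e]
        exact this
      · have e : k - j + j = k := by omega
        simp only [e]
        exact hx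
    · by_cases h2 : ∃ j, 2 ≤ j ∧ j ≤ k ∧ x j = x 1
      · obtain ⟨j, hj1, hj2, hj⟩ := h2
        refine ih (k - j + 1) (by omega) u c (fun i => if i = 0 then x 0 else x (i + j - 1))
          huv hc ⟨?_, ?_⟩ hv ?_
        · simp only [if_true]; exact hx0
        · intro i hi
          rcases Nat.eq_zero_or_pos i with hi0 | hi0
          · subst hi0
            have e : (0 + 1 : ℕ) ≠ 0 := by omega
            have e2 : 0 + 1 + j - 1 = j := by omega
            simp only [e, if_true, if_false, e2]
            rw [hj]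
            exact hstep 0 hk
          · have e : i ≠ 0 := by omega
            have e1 : i + 1 ≠ 0 := by omega
            have e2 : i + 1 + j - 1 = i + j - 1 + 1 := by omega
            simp only [e, e1, if_false, e2]
            exact hstep (i + j - 1) (by omega)
        · have e : k - j + 1 ≠ 0 := by omega
          have e2 : k - j + 1 + j - 1 = k := by omega
          simp only [e, if_false, e2]
          exact hx
      · have hs0 := hstep 0 hk
        simp only [Nat.zero_add] at hs0
        rw [hx0] at hs0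
        have hxv : ∀ i, 1 ≤ i → i ≤ k → G.Adj v (x i) := by
          intro i hi1 hi2
          have := (hstep (i - 1) (by omega)).1
          rw [VAL_adjv] at this
          have e : i - 1 + 1 = i := by omega
          rw [e] at this
          exact this.1
        have hxu : ∀ i, 1 ≤ i → i ≤ k → x i ≠ u := by
          intro i hi1 hi2 h
          exact h1 ⟨i, hi1, hi2, by rw [h, hx0]⟩
        refine ih (k - 1) (by omega) (x 1) (VAL_sh c v u (x 1)) (fun i => x (i + 1))
          (hxv 1 le_rfl (by omega)) (VAL_shPEC G D v u (x 1) c hc hs0.1 hs0.2) ⟨?_, ?_⟩ ?_ ?_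
        · simp only [Nat.zero_add]
        · intro i hi
          have hst := hstep (i + 1) (by omega)
          have hne : x (i + 1 + 1) ≠ x 1 := fun h => h2 ⟨i + 1 + 1, by omega, by omega, h⟩
          have hcc : VAL_sh c v u (x 1) s(v, x (i + 1 + 1)) = c s(v, x (i + 1 + 1)) := by
            unfold VAL_sh
            rw [if_neg]
            intro h
            rcases Sym2.eq_iff.1 h with ⟨_, h3⟩ | ⟨h3, h4⟩
            · exact hxu _ (by omega) (by omega) h3
            · exact (hxv (i + 1 + 1) (by omega) (by omega)).ne' h4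
          refine ⟨?_, ?_⟩
          · rw [VAL_adjv]
            exact ⟨hxv _ (by omega) (by omega), hne⟩
          · simp only [hcc]
            intro h
            exact hst.2 (VAL_sho G v u (x 1) c (x (i + 1)) (hxu _ (by omega) (by omega))
              (hxv _ (by omega) (by omega)).ne' _ h)
        · intro h
          exact hv (VAL_shv G v u (x 1) c hs0.1 α h)
        · have e : k - 1 + 1 = k := by omega
          simp only [e]
          intro h
          exact hx (VAL_sho G v u (x 1) c (x k) (hxu _ (by omega) (by omega))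
              (hxv _ (by omega) (by omega)).ne' _ h)

/-- A colour `β` missing at a vertex of the fan and `α` missing at `v`: the vertex is in the Kempe
component of `v`. -/
theorem VAL_two (hKSW : KSW_stmt) {V : Type} [Fintype V] (G : SimpleGraph V) (D : ℕ) (v : V)
    (α β : ℕ) (hα : α < D) (hβ : β < D) (u : V) (c : Sym2 V → ℕ) (x : ℕ → V) (m : ℕ)
    (hGu : G.Adj v u) (hc : PEC (G.deleteEdges {s(v, u)}) D c) (hfan : VAL_fan G v u c x m)
    (hv : ¬ has (G.deleteEdges {s(v, u)}) c v α)
    (hx : ¬ has (G.deleteEdges {s(v, u)}) c (x m) β) (K : Finset V)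
    (hK : Kcl (G.deleteEdges {s(v, u)}) c α β K) (hvK : v ∉ K) (hxK : x m ∈ K) : EC G D := by
  obtain ⟨hP, hin, hout, hoth⟩ := hKSW V (G.deleteEdges {s(v, u)}) D c α β K hc hα hβ hK
  -- the colours at `v` do not change
  have hcv : ∀ y, (G.deleteEdges {s(v, u)}).Adj v y → ksw c α β K s(v, y) = c s(v, y) := by
    intro y hy
    unfold ksw
    by_cases h : ∃ z ∈ s(v, y), z ∈ K
    · rw [if_pos h]
      obtain ⟨z, hz, hzK⟩ := h
      have hyK : y ∈ K := by
        rcases Sym2.mem_iff.1 hz with h | h
        · exact absurd (h ▸ hzK) hvK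
        · exact h ▸ hzK
      apply Equiv.swap_apply_of_ne_of_ne
      · intro h
        exact hvK ((hK v y hy (Or.inl h)).2 hyK)
      · intro h
        exact hvK ((hK v y hy (Or.inr h)).2 hyK)
    · rw [if_neg h]
  have hex : ∃ i, i ≤ m ∧ x i ∈ K ∧ ¬ has (G.deleteEdges {s(v, u)}) c (x i) β :=
    ⟨m, le_rfl, hxK, hx⟩
  obtain ⟨him, hiK, hiβ⟩ := Nat.find_spec hex
  have hmin : ∀ j, j < Nat.find hex →
      ¬ (j ≤ m ∧ x j ∈ K ∧ ¬ has (G.deleteEdges {s(v, u)}) c (x j) β) :=
    fun j hj => Nat.find_min hex hj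
  set i := Nat.find hex with hi
  refine VAL_one G D v α hα i u (ksw c α β K) x hGu hP ⟨hfan.1, ?_⟩ ?_ ?_
  · intro j hj
    have hst := hfan.2 j (by omega)
    refine ⟨hst.1, ?_⟩
    rw [hcv _ hst.1]
    have hneα : c s(v, x (j + 1)) ≠ α := fun h => hv ⟨_, hst.1, h⟩
    by_cases hb : c s(v, x (j + 1)) = β
    · rw [hb] at hst ⊢
      have hjK : x j ∉ K := fun h => hmin j hj ⟨by omega, h, hst.2⟩
      rw [hout (x j) hjK]
      exact hst.2
    · rw [hoth (x j) _ hneα hb]
      exact hst.2
  · rw [hout v hvK]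
    exact hv
  · rw [(hin (x i) hiK).1]
    exact hiβ

theorem VAL_dgle {V : Type} [Fintype V] (G : SimpleGraph V) (v u y : V) :
    dg (G.deleteEdges {s(v, u)}) y ≤ dg G y := by
  unfold dg dgs
  apply Finset.card_le_card
  intro z hz
  simp only [Finset.mem_filter, Finset.mem_univ, true_and] at hz ⊢
  exact ((VAL_adj G v u y z).1 hz).1

theorem VAL_dglt {V : Type} [Fintype V] (G : SimpleGraph V) (v u y z : V)
    (hyz : G.Adj y z) (h : s(y, z) = s(v, u)) :
    dg (G.deleteEdges {s(v, u)}) y + 1 ≤ dg G y := by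
  have key : ∀ S T : Finset V, z ∉ S → insert z S ⊆ T → S.card + 1 ≤ T.card := by
    intro S T h1 h2
    rw [← Finset.card_insert_of_notMem h1]
    exact Finset.card_le_card h2
  unfold dg dgs
  apply key
  · simp only [Finset.mem_filter, Finset.mem_univ, true_and, VAL_adj]
    rintro ⟨_, h2⟩
    exact h2 h
  · intro w hw
    rw [Finset.mem_insert] at hw
    simp only [Finset.mem_filter, Finset.mem_univ, true_and] at hw ⊢
    rcases hw with hw | hw
    · rw [hw]; exact hyz
    · exact ((VAL_adj G v u y w).1 hw).1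

theorem VAL (hKSW : KSW_stmt) (hKCO : KCO_stmt) (hSCN : SCN_stmt) : VAL_stmt := by
  intro V _ G D hD hEC v w hvw hw
  obtain ⟨c, hc⟩ := hw
  set G' := G.deleteEdges {s(v, w)} with hG'
  -- missing colours
  set M : V → Finset ℕ := fun y => (Finset.range D).filter fun i => ¬ has G' c y i with hM
  have hMcard : ∀ y, (M y).card = D - dg G' y := by
    intro y
    have h1 := hSCN V G' D c hc y
    have h2 := Finset.card_filter_add_card_filter_not (s := Finset.range D)
      (fun i => has G' c y i)
    rw [Finset.card_range, h1] at h2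
    simp only [hM]
    omega
  have hvlt : dg G' v + 1 ≤ dg G v := VAL_dglt G v w v w hvw rfl
  have hwlt : dg G' w + 1 ≤ dg G w := VAL_dglt G v w w v hvw.symm (Sym2.eq_swap)
  -- a colour missing at `v`
  obtain ⟨α, hα⟩ : ∃ α, α ∈ M v := by
    have : 0 < (M v).card := by
      rw [hMcard]
      have := hD v
      omega
    exact Finset.card_pos.1 this
  have hαD : α < D := by
    simp only [hM, Finset.mem_filter, Finset.mem_range] at hα
    exact hα.1
  have hαv : ¬ has G' c v α := by
    simp only [hM, Finset.mem_filter, Finset.mem_range] at hα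
    exact hα.2
  -- the fan
  set F : Finset V := Finset.univ.filter fun y => ∃ k x, VAL_fan G v w c x k ∧ x k = y with hF
  have hFmem : ∀ y, y ∈ F ↔ ∃ k x, VAL_fan G v w c x k ∧ x k = y := by
    intro y
    simp only [hF, Finset.mem_filter, Finset.mem_univ, true_and]
  have hwF : w ∈ F := by
    rw [hFmem]
    exact ⟨0, fun _ => w, ⟨rfl, fun i hi => absurd hi (Nat.not_lt_zero i)⟩, rfl⟩
  have hFadj : ∀ y ∈ F, G.Adj v y := by
    intro y hy
    rw [hFmem] at hy
    obtain ⟨k, x, hf, rfl⟩ := hy
    rcases Nat.eq_zero_or_pos k with hk | hk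
    · subst hk
      rw [hf.1]; exact hvw
    · have := (hf.2 (k - 1) (by omega)).1
      have e : k - 1 + 1 = k := by omega
      rw [e, VAL_adjv] at this
      exact this.1
  have hone : ∀ y ∈ F, ∀ i < D, ¬ has G' c v i → ¬ has G' c y i → False := by
    intro y hy i hi h1 h2
    rw [hFmem] at hy
    obtain ⟨k, x, hf, rfl⟩ := hy
    exact hEC (VAL_one G D v i hi k w c x hvw hc hf h1 h2)
  have hclo : ∀ y ∈ F, ∀ z, G'.Adj v z → ¬ has G' c y (c s(v, z)) → z ∈ F := by
    intro y hy z hz hyz
    rw [hFmem] at hy ⊢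
    obtain ⟨k, x, hf, rfl⟩ := hy
    refine ⟨k + 1, fun i => if i ≤ k then x i else z, ⟨?_, ?_⟩, ?_⟩
    · simp only [Nat.zero_le, if_true]; exact hf.1
    · intro i hi
      have e1 : i ≤ k := by omega
      rcases Nat.lt_or_ge i k with hik | hik
      · have e2 : i + 1 ≤ k := by omega
        simp only [e1, e2, if_true]
        exact hf.2 i hik
      · have e2 : ¬ (i + 1 ≤ k) := by omega
        have e3 : i = k := by omega
        subst e3
        simp only [le_refl, e2, if_true, if_false]
        exact ⟨hz, hyz⟩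
    · have e2 : ¬ (k + 1 ≤ k) := by omega
      simp only [e2, if_false]
  -- missing colours at different vertices of the fan are different
  have hdisj : ∀ y ∈ F, ∀ z ∈ F, y ≠ z → Disjoint (M y) (M z) := by
    intro y hy z hz hyz
    rw [Finset.disjoint_left]
    intro β hβy hβz
    simp only [hM, Finset.mem_filter, Finset.mem_range] at hβy hβz
    have hβD := hβy.1
    have hβv : has G' c v β := by
      by_contra h
      exact hone y hy β hβD h hβy.2
    have hαβ : α ≠ β := by
      rintro rfl
      exact hαv hβv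
    obtain ⟨S, hS1, hS2, hS3, hS4⟩ := hKCO V G' D c α β hc hαβ
    have hin : ∀ t ∈ F, ¬ has G' c t β → t ∈ S v := by
      intro t ht htβ
      by_contra htS
      have hvt : v ∉ S t := by
        intro h
        have := hS2 t v h
        exact htS (this ▸ hS1 t)
      obtain ⟨k, x, hf, hxk⟩ := (hFmem t).1 ht
      rw [← hxk] at htβ
      refine hEC (VAL_two hKSW G D v α β hαD hβD w c x k hvw hc hf hαv htβ (S t) (hS3 t) hvt ?_)
      rw [hxk]
      exact hS1 t
    have hvS : v ∈ (S v).filter fun w => ¬ (has G' c w α ↔ has G' c w β) := by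
      rw [Finset.mem_filter]
      exact ⟨hS1 v, fun h => hαv (h.2 hβv)⟩
    have hα' : ∀ t ∈ F, has G' c t α := by
      intro t ht
      by_contra h
      exact hone t ht α hαD hαv h
    have hyS : y ∈ (S v).filter fun w => ¬ (has G' c w α ↔ has G' c w β) := by
      rw [Finset.mem_filter]
      exact ⟨hin y hy hβy.2, fun h => hβy.2 (h.1 (hα' y hy))⟩
    have hzS : z ∈ (S v).filter fun w => ¬ (has G' c w α ↔ has G' c w β) := by
      rw [Finset.mem_filter]
      exact ⟨hin z hz hβz.2, fun h => hβz.2 (h.1 (hα' z hz))⟩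
    have hvy : v ≠ y := (hFadj y hy).ne
    have hvz : v ≠ z := (hFadj z hz).ne
    have h3 : 2 < ((S v).filter fun w => ¬ (has G' c w α ↔ has G' c w β)).card := by
      rw [Finset.two_lt_card]
      exact ⟨v, hvS, y, hyS, z, hzS, hvy, hvz, hyz⟩
    rcases hS4 v with h | h <;> omega
  -- counting
  have hU : (F.biUnion M).card = ∑ y ∈ F, (D - dg G' y) := by
    rw [Finset.card_biUnion hdisj]
    exact Finset.sum_congr rfl fun y _ => hMcard y
  have hU2 : (F.biUnion M).card ≤ (F.erase w).card := by
    refine le_trans (Finset.card_le_card ?_) (Finset.card_image_le (f := fun z => c s(v, z)))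
    intro i hi
    rw [Finset.mem_biUnion] at hi
    obtain ⟨y, hy, hiy⟩ := hi
    simp only [hM, Finset.mem_filter, Finset.mem_range] at hiy
    have hiv : has G' c v i := by
      by_contra h
      exact hone y hy i hiy.1 h hiy.2
    obtain ⟨z, hz, hzi⟩ := hiv
    rw [Finset.mem_image]
    refine ⟨z, ?_, hzi⟩
    rw [Finset.mem_erase]
    refine ⟨((VAL_adjv G v w z).1 hz).2, hclo y hy z hz ?_⟩
    rw [hzi]
    exact hiy.2
  have hsum : D - dg G w + 1 + ∑ y ∈ F.erase w, (D - dg G y) ≤ ∑ y ∈ F, (D - dg G' y) := by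
    rw [← Finset.add_sum_erase F _ hwF]
    have h1 : D - dg G w + 1 ≤ D - dg G' w := by
      have := hD w
      omega
    have h2 : ∑ y ∈ F.erase w, (D - dg G y) ≤ ∑ y ∈ F.erase w, (D - dg G' y) := by
      apply Finset.sum_le_sum
      intro y _
      have := VAL_dgle G v w y
      rw [← hG'] at this
      omega
    omega
  have hcnt : ((F.erase w).filter fun y => ¬ dg G y = D).card ≤ ∑ y ∈ F.erase w, (D - dg G y) := by
    rw [Finset.card_filter]
    apply Finset.sum_le_sum
    intro y _
    have := hD y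
    split_ifs with h <;> omega
  have hsplit := Finset.card_filter_add_card_filter_not (s := F.erase w) (fun y => dg G y = D)
  have hfin : ((F.erase w).filter fun y => dg G y = D).card ≤
      (Finset.univ.filter fun x => G.Adj v x ∧ x ≠ w ∧ dg G x = D).card := by
    apply Finset.card_le_card
    intro y hy
    rw [Finset.mem_filter, Finset.mem_erase] at hy
    rw [Finset.mem_filter]
    exact ⟨Finset.mem_univ _, hFadj y hy.1.2, hy.1.1, hy.2⟩
  omega

end

end Pool.Agent.OF
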